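import Mathlib

namespace Pool.Agent.Results.MP_b3a091_al.Factor

open scoped Pointwise

def Fac (G : Type) [Group G] : Prop :=
  ∃ A B : Set G, A.Infinite ∧ B.Infinite ∧ ∀ g : G, ∃! p : G × G, p.1 ∈ A ∧ p.2 ∈ B ∧ p.1 * p.2 = g

def Pr (G : Type) [Group G] : Prop :=
  ∀ e : G, e ≠ 1 → ∃ K : Subgroup G, ¬ K.FiniteIndex ∧ ∃ h : G, ∀ y, y * y = e → h⁻¹ * y ∈ K

variable {G : Type} [Group G]

lemma inf_sub [Infinite G] (K : Subgroup G) (h : K.FiniteIndex) : Infinite K := by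
  by_contra hK
  rw [not_infinite_iff_finite] at hK
  have := Finite.of_equiv _ (Subgroup.groupEquivQuotientProdSubgroup (s := K)).symm
  exact not_finite G

lemma bot_inf [Infinite G] : ¬ (⊥ : Subgroup G).FiniteIndex := fun h =>
  have := inf_sub _ h
  not_finite (⊥ : Subgroup G)

lemma avoid [Infinite G] (hP : Pr G) (S : Finset G) (T : Finset (G × G)) (hT : ∀ t ∈ T, t.2 ≠ 1) :
    ∃ x, x ∉ S ∧ ∀ t ∈ T, (t.1 * x) * (t.1 * x) ≠ t.2 := by
  classical
  have hP' : ∀ e : G, ∃ K : Subgroup G, ¬ K.FiniteIndex ∧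
      ∃ h : G, e ≠ 1 → ∀ y, y * y = e → h⁻¹ * y ∈ K := by
    intro e
    by_cases he : e = 1
    · exact ⟨⊥, bot_inf, 1, fun h => absurd he h⟩
    · obtain ⟨K, h1, h, h2⟩ := hP e he
      exact ⟨K, h1, h, fun _ => h2⟩
  choose K hK h hh using hP'
  by_contra! hc
  obtain ⟨k, -, hk⟩ := Subgroup.exists_finiteIndex_of_leftCoset_cover (s := S.disjSum T)
    (H := Sum.elim (fun _ => ⊥) fun t => K t.2) (g := Sum.elim id fun t => t.1⁻¹ * h t.2) (by
      refine Set.eq_univ_of_forall fun x => ?_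
      simp only [Set.mem_iUnion, mem_leftCoset_iff]
      by_cases hx : x ∈ S
      · exact ⟨Sum.inl x, by simpa using hx, by simp⟩
      · obtain ⟨t, ht, e⟩ := hc x hx
        exact ⟨Sum.inr t, by simpa using ht, by simpa [mul_assoc] using hh _ (hT t ht) _ e⟩)
  cases k with
  | inl _ => exact bot_inf hk
  | inr t => exact hK _ hk

def Dir (A B : Finset G) : Prop :=
  ∀ a ∈ A, ∀ b ∈ B, ∀ a' ∈ A, ∀ b' ∈ B, a * b = a' * b' → a = a' ∨ b = b'

lemma step0 [Infinite G] [DecidableEq G] (hP : Pr G) (A B : Finset G) (hD : Dir A B) (g : G)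
    (hg : g ∉ A * B) : ∃ x, x ∉ B ∧ g * x⁻¹ ∉ A ∧ Dir (insert (g * x⁻¹) A) (insert x B) := by
  obtain ⟨x, hx, hq⟩ := avoid hP (B ∪ A⁻¹ * {g} ∪ B * (A * B)⁻¹ * {g} ∪ A⁻¹ * (A * B))
    ((A ×ˢ B).image fun p => (p.2⁻¹, p.2⁻¹ * p.1⁻¹ * g)) (by
      intro t ht
      obtain ⟨p, hp, rfl⟩ := Finset.mem_image.1 ht
      intro e
      obtain ⟨h1, h2⟩ := Finset.mem_product.1 hp
      have : g = p.1 * p.2 := by
        rw [← mul_inv_rev, inv_mul_eq_one] at e; exact e.symm
      exact hg (this ▸ Finset.mul_mem_mul h1 h2))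
  simp only [Finset.mem_union, not_or] at hx
  obtain ⟨⟨⟨x1, x2⟩, x3⟩, x4⟩ := hx
  have c1 : ∀ b ∈ B, ∀ a' ∈ A, ∀ b' ∈ B, g * x⁻¹ * b ≠ a' * b' := fun b hb a' ha' b' hb' e => by
    refine x3 ?_
    rw [show x = b * (a' * b')⁻¹ * g by rw [← e]; group]
    exact Finset.mul_mem_mul (Finset.mul_mem_mul hb (Finset.inv_mem_inv
      (Finset.mul_mem_mul ha' hb'))) (Finset.mem_singleton_self g)
  have c2 : ∀ a ∈ A, ∀ a' ∈ A, ∀ b' ∈ B, a * x ≠ a' * b' := fun a ha a' ha' b' hb' e => by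
    refine x4 ?_
    rw [show x = a⁻¹ * (a' * b') by rw [← e]; group]
    exact Finset.mul_mem_mul (Finset.inv_mem_inv ha) (Finset.mul_mem_mul ha' hb')
  have c3 : ∀ a' ∈ A, ∀ b' ∈ B, g * x⁻¹ * x ≠ a' * b' := fun a' ha' b' hb' e => by
    rw [inv_mul_cancel_right] at e
    exact hg (e ▸ Finset.mul_mem_mul ha' hb')
  have c4 : ∀ b ∈ B, ∀ a' ∈ A, g * x⁻¹ * b ≠ a' * x := fun b hb a' ha' e => by
    refine hq _ (Finset.mem_image_of_mem _ (Finset.mk_mem_product ha' hb)) ?_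
    show b⁻¹ * x * (b⁻¹ * x) = b⁻¹ * a'⁻¹ * g
    rw [show g = a' * x * b⁻¹ * x by rw [← e]; group]; group
  refine ⟨x, x1, fun h => x2 ?_, ?_⟩
  · rw [show x = (g * x⁻¹)⁻¹ * g by group]
    exact Finset.mul_mem_mul (Finset.inv_mem_inv h) (Finset.mem_singleton_self g)
  · intro a ha b hb a' ha' b' hb' e
    simp only [Finset.mem_insert] at ha hb ha' hb'
    rcases ha with rfl | ha <;> rcases ha' with rfl | ha' <;>
      rcases hb with rfl | hb <;> rcases hb' with rfl | hb' <;>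
      first
        | exact Or.inl rfl
        | exact Or.inr rfl
        | exact hD _ ha _ hb _ ha' _ hb' e
        | exact absurd e (c1 _ hb _ ha' _ hb')
        | exact absurd e.symm (c1 _ hb' _ ha _ hb)
        | exact absurd e (c2 _ ha _ ha' _ hb')
        | exact absurd e.symm (c2 _ ha' _ ha _ hb)
        | exact absurd e (c3 _ ha' _ hb')
        | exact absurd e.symm (c3 _ ha _ hb)
        | exact absurd e (c4 _ hb _ ha')
        | exact absurd e.symm (c4 _ hb' _ ha)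

lemma step [Infinite G] [DecidableEq G] (hP : Pr G) (g : G) (s : {p : Finset G × Finset G // Dir p.1 p.2}) :
    ∃ t : {p : Finset G × Finset G // Dir p.1 p.2}, s.1.1 ⊂ t.1.1 ∧ s.1.2 ⊂ t.1.2 ∧
      g ∈ t.1.1 * t.1.2 := by
  obtain ⟨⟨A, B⟩, hD⟩ := s
  by_cases hg : g ∈ A * B
  · obtain ⟨g', hg'⟩ := Infinite.exists_notMem_finset (A * B)
    obtain ⟨x, h1, h2, h3⟩ := step0 hP A B hD g' hg'
    exact ⟨⟨(_, _), h3⟩, Finset.ssubset_insert h2, Finset.ssubset_insert h1,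
      Finset.mul_subset_mul (Finset.subset_insert _ _) (Finset.subset_insert _ _) hg⟩
  · obtain ⟨x, h1, h2, h3⟩ := step0 hP A B hD g hg
    refine ⟨⟨(_, _), h3⟩, Finset.ssubset_insert h2, Finset.ssubset_insert h1, ?_⟩
    simpa using Finset.mul_mem_mul (Finset.mem_insert_self (g * x⁻¹) A) (Finset.mem_insert_self x B)

lemma inf_union (f : ℕ → Finset G) (h : StrictMono f) : (⋃ n, (f n : Set G)).Infinite := by
  intro hf
  have h1 : StrictMono fun n => (f n).card := fun a b hab => Finset.card_lt_card (h hab)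
  have h2 : (f (hf.toFinset.card + 1)).card ≤ hf.toFinset.card := Finset.card_le_card fun x hx =>
    hf.mem_toFinset.2 (Set.mem_iUnion.2 ⟨_, hx⟩)
  have := h1.le_apply (x := hf.toFinset.card + 1)
  omega

lemma greedy [Infinite G] [Countable G] (hP : Pr G) : Fac G := by
  classical
  obtain ⟨e, he⟩ := exists_surjective_nat G
  choose F h1 h2 h3 using step hP
  let s : ℕ → {p : Finset G × Finset G // Dir p.1 p.2} :=
    fun n => Nat.rec ⟨(∅, ∅), by simp [Dir]⟩ (fun n t => F (e n) t) n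
  have m1 : StrictMono fun n => (s n).1.1 := strictMono_nat_of_lt_succ fun n => h1 (e n) (s n)
  have m2 : StrictMono fun n => (s n).1.2 := strictMono_nat_of_lt_succ fun n => h2 (e n) (s n)
  refine ⟨_, _, inf_union _ m1, inf_union _ m2, fun g => ?_⟩
  obtain ⟨n, rfl⟩ := he g
  obtain ⟨a, ha, b, hb, hab⟩ := Finset.mem_mul.1 (h3 (e n) (s n))
  refine ⟨(a, b), ⟨Set.mem_iUnion.2 ⟨n + 1, ha⟩, Set.mem_iUnion.2 ⟨n + 1, hb⟩, hab⟩, ?_⟩
  rintro ⟨a', b'⟩ ⟨ha', hb', e'⟩
  obtain ⟨i, hi⟩ := Set.mem_iUnion.1 ha'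
  obtain ⟨j, hj⟩ := Set.mem_iUnion.1 hb'
  have e'' : a' * b' = a * b := e'.trans hab.symm
  rcases (s (n + 1 + i + j)).2 a' (m1.monotone (by omega : i ≤ _) hi) b'
    (m2.monotone (by omega : j ≤ _) hj) a (m1.monotone (by omega : n + 1 ≤ _) ha) b
    (m2.monotone (by omega : n + 1 ≤ _) hb) e'' with rfl | rfl
  · rw [mul_left_cancel e'']
  · rw [mul_right_cancel e'']

lemma of_sub (H : Subgroup G) (h : Fac H) : Fac G := by
  obtain ⟨A, B, hA, hB, h⟩ := h
  obtain ⟨T, hT, h1⟩ := H.exists_isComplement_right 1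
  refine ⟨Subtype.val '' A, (Subtype.val '' B) * T, hA.image Subtype.val_injective.injOn,
    (hB.image Subtype.val_injective.injOn).mono fun b hb => ⟨b, hb, 1, h1, mul_one b⟩, fun g => ?_⟩
  obtain ⟨⟨u, t⟩, hu, hu'⟩ := Subgroup.isComplement_iff_existsUnique.1 hT g
  obtain ⟨⟨a, b⟩, ⟨ha, hb, hab⟩, hq⟩ := h u
  refine ⟨(a, b * t), ⟨⟨a, ha, rfl⟩, ⟨b, ⟨b, hb, rfl⟩, t, t.2, rfl⟩, ?_⟩, ?_⟩
  · rw [← hu, ← mul_assoc]; exact congrArg (fun z : H => (z : G) * t) hab
  · rintro ⟨_, _⟩ ⟨⟨a', ha', rfl⟩, ⟨_, ⟨b', hb', rfl⟩, t', ht', rfl⟩, e⟩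
    have e1 := hu' (⟨(a' * b' : H), (a' * b').2⟩, ⟨t', ht'⟩) (by rw [← e]; exact mul_assoc _ _ _)
    have e2 := hq (a', b') ⟨ha', hb', congrArg Prod.fst e1⟩
    obtain ⟨rfl, rfl⟩ := Prod.ext_iff.1 e2
    obtain rfl : t' = t := congrArg Subtype.val (congrArg Prod.snd e1)
    rfl

lemma of_quot (N : Subgroup G) [N.Normal] (h : Fac (G ⧸ N)) : Fac G := by
  obtain ⟨A, B, hA, hB, h⟩ := h
  have hs : ∀ q : G ⧸ N, ((q.out : G) : G ⧸ N) = q := fun q => QuotientGroup.out_eq' q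
  refine ⟨QuotientGroup.mk ⁻¹' A, Quotient.out '' B,
    hA.preimage fun q _ => ⟨q.out, hs q⟩, hB.image Quotient.out_injective.injOn, fun g => ?_⟩
  obtain ⟨⟨a, b⟩, ⟨ha, hb, hab⟩, hq⟩ := h g
  refine ⟨(g * b.out⁻¹, b.out), ⟨?_, ⟨b, hb, rfl⟩, by simp⟩, ?_⟩
  · show ((g * b.out⁻¹ : G) : G ⧸ N) ∈ A
    rw [QuotientGroup.mk_mul, QuotientGroup.mk_inv, hs, ← hab]; simpa using ha
  · rintro ⟨a', _⟩ ⟨ha', ⟨b', hb', rfl⟩, e⟩
    have e2 := hq (a', b') ⟨ha', hb', by rw [← e, QuotientGroup.mk_mul, hs]⟩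
    obtain ⟨-, rfl⟩ := Prod.ext_iff.1 e2
    rw [← e]; simp

lemma comm_case [Infinite G] [Countable G] (hc : ∀ a b : G, a * b = b * a) : Fac G := by
  let D : Subgroup G :=
    { carrier := {x | x * x = 1}
      one_mem' := one_mul 1
      mul_mem' := fun {a b} (ha : a * a = 1) (hb : b * b = 1) => show a * b * (a * b) = 1 by
        rw [hc a b, mul_assoc, hc b a, ← mul_assoc a, ha, one_mul, hb]
      inv_mem' := fun {a} (ha : a * a = 1) => show a⁻¹ * a⁻¹ = 1 by rw [← mul_inv_rev, ha, inv_one] }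
  by_cases hD : D.FiniteIndex
  · have := inf_sub D hD
    exact of_sub D (greedy fun e he => ⟨⊥, bot_inf, 1, fun y hy =>
      absurd (hy.symm.trans (Subtype.ext (show (y : G) * y = 1 from y.2))) he⟩)
  · refine greedy fun e _ => ⟨D, hD, ?_⟩
    by_cases h : ∃ y, y * y = e
    · obtain ⟨y0, h0⟩ := h
      refine ⟨y0, fun y hy => show y0⁻¹ * y * (y0⁻¹ * y) = 1 from ?_⟩
      rw [mul_assoc, ← mul_assoc y, hc y y0⁻¹, mul_assoc, hy, ← mul_assoc, ← mul_inv_rev, h0,
        inv_mul_cancel]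
    · exact ⟨1, fun y hy => absurd ⟨y, hy⟩ h⟩

lemma cls_iff (g : G) :
    (Subgroup.centralizer {g}).FiniteIndex ↔ (Set.range fun h => h * g * h⁻¹).Finite := by
  have key : ∀ a b : G, a⁻¹ * b ∈ Subgroup.centralizer {g} ↔ a * g * a⁻¹ = b * g * b⁻¹ := by
    intro a b
    rw [Subgroup.mem_centralizer_singleton_iff]
    constructor
    · intro h
      rw [show b * g * b⁻¹ = a * (a⁻¹ * b * g) * b⁻¹ by group, h]; group
    · intro h
      rw [show g * (a⁻¹ * b) = a⁻¹ * (a * g * a⁻¹) * b by group, h]; group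
  let φ : G ⧸ Subgroup.centralizer {g} → G :=
    Quotient.lift (fun h => h * g * h⁻¹) fun a b h => (key a b).1 (QuotientGroup.leftRel_apply.1 h)
  have hφ : Function.Injective φ := by
    rintro ⟨a⟩ ⟨b⟩ h
    exact Quotient.sound (QuotientGroup.leftRel_apply.2 ((key a b).2 h))
  have hr : Set.range φ = Set.range fun h => h * g * h⁻¹ := 
    Set.range_quotient_lift (s := QuotientGroup.leftRel _) _
  rw [← hr, Set.finite_range_iff hφ]
  exact ⟨fun _ => inferInstance, fun _ => Subgroup.finiteIndex_of_finite_quotient⟩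

def FC (G : Type) [Group G] : Subgroup G where
  carrier := {g | (Set.range fun h => h * g * h⁻¹).Finite}
  one_mem' := (Set.finite_singleton 1).subset (by rintro _ ⟨h, rfl⟩; simp)
  mul_mem' := fun {a b} ha hb => (Set.Finite.mul ha hb).subset (by
    rintro _ ⟨h, rfl⟩; exact ⟨_, ⟨h, rfl⟩, _, ⟨h, rfl⟩, by group⟩)
  inv_mem' := fun {a} ha => (Set.Finite.inv ha).subset (by
    rintro _ ⟨h, rfl⟩; exact Set.mem_inv.2 ⟨h, by group⟩)

instance : (FC G).Normal := ⟨fun a ha g => Set.Finite.subset ha (by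
  rintro _ ⟨h, rfl⟩; exact ⟨h * g, by group⟩)⟩

theorem result (G : Type) [Group G] [Countable G] [Infinite G] :
    ∃ A B : Set G, A.Infinite ∧ B.Infinite ∧
      ∀ g : G, ∃! p : G × G, p.1 ∈ A ∧ p.2 ∈ B ∧ p.1 * p.2 = g := by
  rcases finite_or_infinite (FC G) with hF | hF
  · have : Infinite (G ⧸ FC G) := by
      by_contra h
      rw [not_infinite_iff_finite] at h
      have := inf_sub (FC G) Subgroup.finiteIndex_of_finite_quotient
      exact not_finite (FC G)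
    have : Countable (G ⧸ FC G) := QuotientGroup.mk_surjective.countable
    refine of_quot (FC G) (greedy fun e he => ⟨Subgroup.centralizer {e}, fun h => he ?_, 1,
      fun y hy => ?_⟩)
    · obtain ⟨g, rfl⟩ := QuotientGroup.mk_surjective e
      rw [QuotientGroup.eq_one_iff]
      refine (((cls_iff _).1 h).preimage' (f := QuotientGroup.mk) fun q _ => ?_).subset ?_
      · refine (Set.finite_range fun n : FC G => q.out * n).subset fun x hx => ?_
        exact ⟨⟨q.out⁻¹ * x, QuotientGroup.eq.1 ((QuotientGroup.out_eq' q).trans hx.symm)⟩, by simp⟩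
      · rintro _ ⟨h, rfl⟩; exact ⟨h, rfl⟩
    · rw [inv_one, one_mul, Subgroup.mem_centralizer_singleton_iff, ← hy, mul_assoc]
  · have : Std.Symm fun x y : G => x ≠ y ∧ x * y = y * x := ⟨fun _ _ h => ⟨h.1.symm, h.2.symm⟩⟩
    obtain ⟨f, -, hf⟩ := exists_seq_of_forall_finset_exists' (fun x : G => x ∈ FC G)
      (fun x y => x ≠ y ∧ x * y = y * x) (fun s hs => by
        have h1 : (⨅ x ∈ s, Subgroup.centralizer ({x} : Set G)).FiniteIndex :=
          Subgroup.finiteIndex_iInf' _ fun x hx => (cls_iff x).2 (hs x hx)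
        have h2 := inf_sub (((⨅ x ∈ s, Subgroup.centralizer ({x} : Set G))).subgroupOf (FC G))
          inferInstance
        obtain ⟨_, ⟨y, rfl⟩, hy⟩ := (Set.infinite_range_of_injective
          (f := fun y : ((⨅ x ∈ s, Subgroup.centralizer ({x} : Set G))).subgroupOf (FC G) =>
            (y.1.1 : G)) (Subtype.val_injective.comp Subtype.val_injective)).exists_notMem_finset s
        refine ⟨y.1.1, y.1.2, fun x hx => ⟨fun e => hy (show y.1.1 ∈ s from e ▸ hx), ?_⟩⟩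
        have := Subgroup.mem_subgroupOf.1 y.2
        simp only [Subgroup.mem_iInf, Subgroup.mem_centralizer_singleton_iff] at this
        exact (this x hx).symm)
    have hi : Function.Injective f := fun m n h => by
      by_contra hne; exact (hf hne).1 h
    have : Infinite (Subgroup.closure (Set.range f)) :=
      ((Set.infinite_range_of_injective hi).mono Subgroup.subset_closure).to_subtype
    have hc := Subgroup.isMulCommutative_closure (k := Set.range f) (by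
      rintro _ ⟨m, rfl⟩ _ ⟨n, rfl⟩
      by_cases h : m = n
      · rw [h]
      · exact (hf h).2)
    exact of_sub _ (comm_case fun a b => hc.is_comm.comm a b)

end Pool.Agent.Results.MP_b3a091_al.Factor
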